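import Pool.Agent.W619.TW.CPDefs
import Pool.Agent.TH756.PN.Fin
import Pool.Agent.TH756.PN.FinB

/-!
Campana-Peternell type inequalities from the equality of the Kodaira and the numerical dimension.
-/

set_option autoImplicit false
set_option linter.overlappingInstances false
set_option linter.unusedSectionVars false

open FF IntermediateField Pool.Agent.W619.PQ Pool.Agent.W619.PL

namespace Pool.Agent.TH756.CP

section

variable {k : Type} {K : Type} [Field k] [Field K] [Algebra k K]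

/-- `ν (A) ≥ h` for the divisor `A` with multiplicity `a v` along each divisor `v`: there are a
divisor `H` (generated by a finite set `S` of functions) and `m ≥ 1` with `h⁰ (j m A + H) ≥ j ^ h`
for all `j ≥ 1`. -/
def DivNumGe (k K : Type) [Field k] [Field K] [Algebra k K] (n : ℕ) (a : Place k K → ℤ)
    (h : ℕ) : Prop :=
  ∃ (S : Finset K) (m : ℕ), 1 ≤ m ∧ ∀ j : ℕ, 1 ≤ j → ∃ f : Fin (j ^ h) → K,
    LinearIndependent k f ∧ ∀ l, ∀ v : Place k K, IsDivisorial v n →
      ∃ s ∈ S, s ≠ 0 ∧ v.ord s - j * m * a v ≤ v.ord (f l)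

theorem num_sections {n : ℕ} {Bd : Place k K → Prop} {r : ℕ} {a : Place k K → ℤ} {h : ℕ}
    (hps : Pool.Agent.W619.TW.IsPsefRest k K n Bd r a) (hA : DivNumGe k K n a h) :
    ∃ (S : Finset K) (m : ℕ), 1 ≤ m ∧ ∀ j : ℕ, 1 ≤ j →
      Pool.Agent.W619.TW.HasIndep k K n (j ^ h)
        (Pool.Agent.W619.TW.IsSec k K n Bd S (j * m * r) 1) := by
  classical
  obtain ⟨S, hS⟩ := hps
  obtain ⟨S', m, hm, hf⟩ := hA
  refine ⟨Finset.image₂ (fun s s' => s * s') S S', m, hm, fun j hj => ?_⟩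
  obtain ⟨f, hfli, hfa⟩ := hf j hj
  obtain ⟨β, h1, ⟨D0, hD0⟩, h2, h3⟩ := hS (j * m) (Nat.one_le_iff_ne_zero.2
    (mul_ne_zero (by omega) (by omega)))
  have hf0 : ∀ l, f l ≠ 0 := fun l => hfli.ne_zero l
  have hdom : ∀ (v : Place k K) (l : Fin (j ^ h)) (D : Fin n → Derivation k K K),
      IsDivisorial v n →
      (β D = 0 ∨ ∃ s ∈ S, s ≠ 0 ∧ (j * m : ℕ) * a v + v.ord s ≤ v.ord (β D)) →
      Pool.Agent.W619.TW.Dom v (Finset.image₂ (fun s s' => s * s') S S') 1 (f l * β D) := by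
    intro v l D hv hD
    rcases hD with h4 | ⟨s, hs, hs0, h4⟩
    · left; rw [h4, mul_zero]
    · by_cases hb : β D = 0
      · left; rw [hb, mul_zero]
      right
      obtain ⟨s', hs', hs'0, h5⟩ := hfa l v hv
      refine ⟨s * s', Finset.mem_image₂_of_mem hs hs', mul_ne_zero hs0 hs'0, ?_⟩
      rw [v.ord_mul (hf0 l) hb, v.ord_mul hs0 hs'0]
      push_cast at h4 ⊢
      linarith
  refine ⟨fun l D => f l * β D, ?_, fun l => ⟨?_, ?_, ?_⟩⟩
  · refine LinearIndependent.of_comp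
      (LinearMap.proj D0 : ((Fin n → Derivation k K K) → K) →ₗ[k] K) ?_
    have h4 := hfli.map' (LinearMap.mulRight k (β D0))
      (LinearMap.ker_eq_bot.2 (mul_left_injective₀ hD0))
    exact h4
  · intro A D
    change f l * β _ = _
    rw [h1 A D]
    ring
  · intro v hv hB D hD
    exact hdom v l D hv (h2 v hv hB D hD)
  · intro v hv hB D hD
    exact hdom v l D hv (h3 v hv hB D hD)

theorem num_le {n : ℕ} {Bd : Place k K → Prop} {h0 : ℕ}
    (hnum : Pool.Agent.W619.TW.NumLe k K n Bd h0) {r : ℕ} (hr : 1 ≤ r)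
    {a : Place k K → ℤ} {h : ℕ} (hps : Pool.Agent.W619.TW.IsPsefRest k K n Bd r a)
    (hA : DivNumGe k K n a h) : h ≤ h0 := by
  by_contra hlt
  push Not at hlt
  obtain ⟨S, m, hm, hS⟩ := num_sections hps hA
  obtain ⟨C, hC⟩ := hnum S
  set M := C * (m * r) ^ h0 with hM
  have h1 : ∀ j : ℕ, 1 ≤ j → 1 ≤ j * m * r → j ≤ M := by
    intro j hj hj'
    have h2 := hC (j * m * r) _ hj' (hS j hj)
    have h3 : j ^ (h0 + 1) ≤ j ^ h := Nat.pow_le_pow_right hj hlt
    have h4 : j ^ h0 * j ≤ j ^ h0 * M := by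
      calc j ^ h0 * j = j ^ (h0 + 1) := (pow_succ _ _).symm
        _ ≤ C * (j * m * r) ^ h0 := h3.trans h2
        _ = j ^ h0 * M := by rw [hM, mul_assoc j m r, mul_pow]; ring
    exact Nat.le_of_mul_le_mul_left h4 (Nat.pow_pos hj)
  have h2 := h1 (M + 1) (by omega) (Nat.one_le_iff_ne_zero.2
    (mul_ne_zero (mul_ne_zero (by omega) (by omega)) (by omega)))
  omega

theorem reg_of_log' {P : Place k K} {D : Derivation k K K}
    (h : Pool.Agent.W602.GT.DerLog P D) : Pool.Agent.W602.GT.DerReg P D := by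
  intro f hf
  by_cases hf0 : f = 0
  · rw [hf0, map_zero]
    exact P.reg_zero
  · have h1 : D f = D f / f * f := (div_mul_cancel₀ _ hf0).symm
    rw [h1]
    exact P.reg_mul (h f) hf

/-- if `r (K + D) - A` is pseudo-effective and `ν (A) ≥ 0` then `K + D` is pseudo-effective -/
theorem psef_of_rest {n : ℕ} {Bd : Place k K → Prop} {r : ℕ} (hr : 1 ≤ r) {a : Place k K → ℤ}
    {h : ℕ} (hps : Pool.Agent.W619.TW.IsPsefRest k K n Bd r a) (hA : DivNumGe k K n a h) :
    Pool.Agent.W602.GT.Psef k K n Bd := by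
  classical
  obtain ⟨S, m, hm, hS⟩ := num_sections hps hA
  refine ⟨insert 1 S, fun N => ?_⟩
  rcases Nat.eq_zero_or_pos N with rfl | hN
  · refine ⟨1, one_pos, fun _ => 1, ⟨?_, ?_, ?_⟩, 0, one_ne_zero⟩
    · intro A D
      simp
    · intro P _ D _
      refine Or.inr ⟨1, Finset.mem_insert_self _ _, one_ne_zero, ?_⟩
      simp
    · intro P _ _ D _
      refine Or.inr ⟨1, Finset.mem_insert_self _ _, one_ne_zero, ?_⟩
      simp
  · obtain ⟨ω, hlin, hsec⟩ := hS N hN
    have hpos : 0 < N ^ h := Nat.pow_pos hN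
    have hne : ω ⟨0, hpos⟩ ≠ 0 := hlin.ne_zero _
    obtain ⟨D0, hD0⟩ := Function.ne_iff.1 hne
    have hmr : 0 < m * r := Nat.mul_pos hm hr
    have hcon : ∀ (P : Place k K) (f : K), Pool.Agent.W619.TW.Dom P S 1 f →
        Pool.Agent.W602.GT.TwReg P (insert 1 S) (m * r) f := by
      intro P f hf
      rcases hf with hf | ⟨s, hs, hs0, hle⟩
      · exact Or.inl hf
      · right
        rw [Nat.cast_one, one_mul] at hle
        by_cases h0 : 0 ≤ P.ord s
        · refine ⟨1, Finset.mem_insert_self _ _, one_ne_zero, ?_⟩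
          rw [P.ord_one, mul_zero]
          linarith
        · push Not at h0
          refine ⟨s, Finset.mem_insert_of_mem hs, hs0, ?_⟩
          have h1 : (1 : ℤ) ≤ ((m * r : ℕ) : ℤ) := by exact_mod_cast hmr
          nlinarith
    have heq : N * m * r = m * r * N := by ring
    refine ⟨m * r, hmr, ω ⟨0, hpos⟩, ⟨?_, ?_, ?_⟩, D0, hD0⟩
    · rw [← heq]
      exact (hsec _).1
    · intro P hP D hD
      apply hcon
      by_cases hB : Bd P
      · exact (hsec _).2.2 P hP hB D hD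
      · exact (hsec _).2.1 P hP hB D fun i => reg_of_log' (hD i)
    · intro P hP hB D hD
      apply hcon
      exact (hsec _).2.1 P hP hB D hD

/-- fewer algebraically independent functions -/
theorem kodGe_mono {w : ℕ} {Bd : Place k K → Prop} {h h' : ℕ} (hle : h' ≤ h)
    (hk : Pool.Agent.W602.GT.KodGe k K w Bd h) : Pool.Agent.W602.GT.KodGe k K w Bd h' := by
  obtain ⟨N, hN, ω, h1, D, hD, hind⟩ := hk
  refine ⟨N, hN, fun j => ω (Fin.castLE (by omega) j), fun j => h1 _, D, hD, ?_⟩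
  exact hind.comp (Fin.castLE hle) (Fin.castLE_injective hle)

theorem cp_kod {w : ℕ} {Bd : Place k K → Prop} {h0 : ℕ}
    (hk : Pool.Agent.W602.GT.KodGe k K w Bd h0)
    (hnum : Pool.Agent.W619.TW.NumLe k K w Bd h0) {r : ℕ} (hr : 1 ≤ r)
    {a : Place k K → ℤ} {h : ℕ} (hps : Pool.Agent.W619.TW.IsPsefRest k K w Bd r a)
    (hA : DivNumGe k K w a h) : Pool.Agent.W602.GT.KodGe k K w Bd h :=
  kodGe_mono (num_le hnum hr hps hA) hk

end

end Pool.Agent.TH756.CP
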